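import Mathlib
import Pool.Agent.H11.Smyth.Limit
import Pool.Agent.H11.Smyth.Conv
import Pool.Agent.H11.Smyth.Roots
import Pool.Agent.H11.Smyth.Realize

/-!
Smyth tuples over number fields: a tuple of integers of a number field `K` is a Smyth tuple if and
only if it satisfies the strong absolute value criteria or has a vanishing sum with roots of unity.
-/

set_option autoImplicit false

open Polynomial IsDedekindDomain
open scoped NumberField

universe u w

namespace Pool.Agent.Results.MP_ed3ef1_nt.AbsoluteValueCriteria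

/-- Nonzero elements `γ_1, …, γ_n` (repetitions allowed) of an extension field of `K` are Galois
conjugates over `K`: all of them are roots of a single irreducible polynomial in `K[x]`. -/
def GaloisConjugates (K : Type u) {Ω : Type w} [Field K] [Field Ω] [Algebra K Ω] {n : ℕ}
    (γ : Fin n → Ω) : Prop :=
  (∀ i, γ i ≠ 0) ∧ ∃ f : K[X], Irreducible f ∧ ∀ i, aeval (γ i) f = 0

/-- `(a_1, …, a_n) ∈ O_K^n` is a Smyth tuple over `K`: there are Galois conjugates
`γ_1, …, γ_n` over `K`, in the algebraic closure `Ω` of `K`, with `∑ a_i γ_i = 0`. -/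
def IsSmythTuple (K : Type u) (Ω : Type w) [Field K] [Field Ω] [Algebra K Ω] {n : ℕ}
    (a : Fin n → 𝓞 K) : Prop :=
  ∃ γ : Fin n → Ω, GaloisConjugates K γ ∧ ∑ i, algebraMap K Ω (a i : K) * γ i = 0

/-- (1'') `|a_i| < ∑_{j ≠ i} |a_j|` for all `i` and every archimedean absolute value
`|x| = |σ(x)|`, where `σ` runs over the field embeddings `K → ℂ`. -/
def StrictArchimedean (K : Type u) [Field K] {n : ℕ} (a : Fin n → 𝓞 K) : Prop :=
  ∀ σ : K →+* ℂ, ∀ i, ‖σ (a i : K)‖ < ∑ j ∈ Finset.univ.erase i, ‖σ (a j : K)‖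

/-- (2') `|a_i| ≤ max_{j ≠ i} |a_j|` for all `i` and every nonarchimedean absolute value
of `K`, that is the real valued `p`-adic absolute value of every nonzero prime `p` of `O_K`. -/
def Nonarchimedean (K : Type u) [Field K] [NumberField K] {n : ℕ} (a : Fin n → 𝓞 K) : Prop :=
  ∀ p : HeightOneSpectrum (𝓞 K), ∀ i, ∃ j, j ≠ i ∧
    NumberField.HeightOneSpectrum.adicAbv K p (a i : K) ≤
      NumberField.HeightOneSpectrum.adicAbv K p (a j : K)

/-- (a) the strong absolute value criteria over `K`: (1'') and (2'). -/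
def StrongCriteria (K : Type u) [Field K] [NumberField K] {n : ℕ} (a : Fin n → 𝓞 K) : Prop :=
  StrictArchimedean K a ∧ Nonarchimedean K a

/-- (b) there are roots of unity `ω_1, …, ω_n` in some extension field `L` of `K` with
`∑ a_i ω_i = 0`. -/
def RootsOfUnityRelation (K : Type u) [Field K] {n : ℕ} (a : Fin n → 𝓞 K) : Prop :=
  ∃ (L : Type w) (_ : Field L) (_ : Algebra K L) (ω : Fin n → L),
    (∀ i, ∃ m : ℕ, 0 < m ∧ ω i ^ m = 1) ∧ ∑ i, algebraMap K L (a i : K) * ω i = 0

/-- Galois conjugates have the same minimal polynomial. -/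
lemma GaloisConjugates.minpoly_eq {K : Type u} {Ω : Type w} [Field K] [Field Ω] [Algebra K Ω]
    {n : ℕ} {γ : Fin n → Ω} (h : GaloisConjugates K γ) (i j : Fin n) :
    minpoly K (γ i) = minpoly K (γ j) := by
  obtain ⟨-, f, hf, hroot⟩ := h
  rw [← minpoly.eq_of_irreducible hf (hroot i), ← minpoly.eq_of_irreducible hf (hroot j)]

/-- Nonzero algebraic elements with the same minimal polynomial are Galois conjugates. -/
lemma conjugates_of_minpoly {K : Type u} {Ω : Type w} [Field K] [Field Ω] [Algebra K Ω]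
    [Algebra.IsAlgebraic K Ω] {n : ℕ} (hn : 1 ≤ n) {γ : Fin n → Ω} (h0 : ∀ i, γ i ≠ 0)
    (h : ∀ i j, minpoly K (γ i) = minpoly K (γ j)) : GaloisConjugates K γ := by
  have i0 : Fin n := ⟨0, hn⟩
  refine ⟨h0, minpoly K (γ i0), minpoly.irreducible (Algebra.IsIntegral.isIntegral _), ?_⟩
  intro i
  rw [h i0 i]
  exact minpoly.aeval K (γ i)

/-- Roots of unity in an extension field may be moved into the algebraic closure. -/
lemma RootsOfUnityRelation.exists_closure {K : Type u} [Field K] (Ω : Type w) [Field Ω]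
    [Algebra K Ω] [IsAlgClosed Ω] {n : ℕ} {a : Fin n → 𝓞 K}
    (h : RootsOfUnityRelation.{u, w} K a) :
    ∃ ω : Fin n → Ω, (∀ i, ∃ m : ℕ, 0 < m ∧ ω i ^ m = 1) ∧
      ∑ i, algebraMap K Ω (a i : K) * ω i = 0 := by
  obtain ⟨L, _, _, ω, hω, hsum⟩ := h
  have hint : ∀ i, IsAlgebraic K (ω i) := by
    intro i
    obtain ⟨m, hm, h1⟩ := hω i
    refine ⟨X ^ m - 1, ?_, by simp [h1]⟩
    exact (monic_X_pow_sub_C (1 : K) hm.ne').ne_zero
  let M : IntermediateField K L := algebraicClosure K L
  have hM : ∀ i, ω i ∈ M := fun i => mem_algebraicClosure_iff.2 (hint i)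
  let φ : M →ₐ[K] Ω := IsAlgClosed.lift
  refine ⟨fun i => φ ⟨ω i, hM i⟩, ?_, ?_⟩
  · intro i
    obtain ⟨m, hm, h1⟩ := hω i
    refine ⟨m, hm, ?_⟩
    rw [← map_pow]
    have h2 : (⟨ω i, hM i⟩ : M) ^ m = 1 := by
      apply Subtype.ext
      simpa using h1
    rw [h2, map_one]
  · have h3 : (∑ i, algebraMap K M (a i : K) * (⟨ω i, hM i⟩ : M)) = 0 := by
      apply Subtype.ext
      have h4 : ((∑ i, algebraMap K M (a i : K) * (⟨ω i, hM i⟩ : M) : M) : L) =
          ∑ i, algebraMap K L (a i : K) * ω i := by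
        rw [AddSubmonoidClass.coe_finsetSum]
        rfl
      rw [h4, hsum]
      rfl
    have h5 := congrArg φ h3
    rw [map_sum, map_zero] at h5
    simp only [map_mul, AlgHom.commutes] at h5
    exact h5

/-- Comparison of the real valued `p`-adic absolute value with the valuation. -/
lemma adicAbv_le_iff (K : Type u) [Field K] [NumberField K] (p : HeightOneSpectrum (𝓞 K))
    (x y : K) : NumberField.HeightOneSpectrum.adicAbv K p x ≤
      NumberField.HeightOneSpectrum.adicAbv K p y ↔ p.valuation K x ≤ p.valuation K y := by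
  rw [NumberField.HeightOneSpectrum.adicAbv_def, NumberField.HeightOneSpectrum.adicAbv_def,
    NNReal.coe_le_coe]
  exact (WithZeroMulInt.toNNReal_strictMono
    (NumberField.HeightOneSpectrum.one_lt_absNorm_nnreal p)).le_iff_le

/-- A tuple with the strict archimedean criterion has more than one entry. -/
lemma StrictArchimedean.exists_ne {K : Type u} [Field K] [NumberField K] {n : ℕ}
    {a : Fin n → 𝓞 K} (h : StrictArchimedean K a) (i : Fin n) : ∃ j, j ≠ i ∧ a j ≠ 0 := by
  by_contra hcon
  push Not at hcon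
  obtain ⟨σ⟩ : Nonempty (K →+* ℂ) := inferInstance
  have h1 := h σ i
  have h2 : ∑ j ∈ Finset.univ.erase i, ‖σ (a j : K)‖ = 0 := by
    refine Finset.sum_eq_zero fun j hj => ?_
    rw [hcon j (Finset.ne_of_mem_erase hj)]
    simp
  rw [h2] at h1
  exact absurd h1 (not_lt.mpr (norm_nonneg _))

/-- **Smyth's conjecture over number fields.** For every number field `K`, every algebraic closure
`Ω` of `K`, every `n ≥ 1` and every tuple `(a_1, …, a_n) ∈ O_K^n`: the tuple is a Smyth tuple over
`K` if and only if (a) it satisfies the strong absolute value criteria over `K`, or (b) there are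
roots of unity `ω_1, …, ω_n` in some extension of `K` with `∑ a_i ω_i = 0`. -/
theorem result (K : Type u) [Field K] [NumberField K] (Ω : Type w) [Field Ω] [Algebra K Ω]
    [IsAlgClosure K Ω] (n : ℕ) (hn : 1 ≤ n) (a : Fin n → 𝓞 K) :
    IsSmythTuple K Ω a ↔ StrongCriteria K a ∨ RootsOfUnityRelation.{u, w} K a := by
  have halg : IsAlgClosed Ω := IsAlgClosure.isAlgClosed K
  have hint : Algebra.IsAlgebraic K Ω := IsAlgClosure.isAlgebraic
  have hnormal : Normal K Ω := IsAlgClosure.normal K Ω
  have hchar : CharZero Ω := charZero_of_injective_algebraMap (algebraMap K Ω).injective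
  constructor
  · rintro ⟨γ, hγ, hsum⟩
    have hconj := hγ.minpoly_eq
    by_cases harch : StrictArchimedean K a
    · left
      refine ⟨harch, fun p i => ?_⟩
      obtain ⟨j, hj, -⟩ := harch.exists_ne i
      obtain ⟨k, hk, hle⟩ := Pool.Agent.H11.Smyth.nonarch (p.valuation K) (fun i => (a i : K)) γ
        hγ.1 hconj hsum i ⟨j, hj⟩
      exact ⟨k, hk, (adicAbv_le_iff K p _ _).2 hle⟩
    · right
      unfold StrictArchimedean at harch
      push Not at harch
      obtain ⟨σ, i, hσi⟩ := harch
      rcases Pool.Agent.H11.Smyth.arch_or_roots (fun i => (a i : K)) γ hγ.1 hconj hsum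
        (NumberField.InfinitePlace.mk σ) i with h | ⟨ω, hω, hω0⟩
      · simp only [NumberField.InfinitePlace.apply] at h
        exact absurd h (not_lt.mpr hσi)
      · exact ⟨Ω, inferInstance, inferInstance, ω, hω, hω0⟩
  · rintro (⟨harch, hna⟩ | hroots)
    · have hna' : ∀ i, ∃ c : Fin n → 𝓞 K, c i = 1 ∧ ∑ j, a j * c j = 0 := by
        intro i
        refine Pool.Agent.H11.Smyth.unit_coord K a i ?_ (fun v => ?_)
        · obtain ⟨j, hj, hj0⟩ := harch.exists_ne i
          exact ⟨j, hj, hj0⟩
        · obtain ⟨j, hj, hle⟩ := hna v i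
          exact ⟨j, hj, (adicAbv_le_iff K v _ _).1 hle⟩
      obtain ⟨N, x, hx1, ⟨k, i, hki⟩, hx3⟩ :=
        Pool.Agent.H11.Smyth.exists_equal_marg K hn a harch hna'
      obtain ⟨γ, h1, h2, h3⟩ := Pool.Agent.H11.Smyth.realize K Ω (fun i => (a i : K)) N
        (fun k i => (x k i : K)) (fun k => by
          have h1 := congrArg (algebraMap (𝓞 K) K) (hx1 k)
          rw [map_sum, map_zero] at h1
          simp only [map_mul] at h1
          exact h1) ⟨k, i, by exact_mod_cast hki⟩ (fun i j => by
          obtain ⟨π, hπ⟩ := hx3 i j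
          exact ⟨π, fun k => by
            show ((x k i : 𝓞 K) : K) = ((x (π k) j : 𝓞 K) : K)
            rw [hπ k]⟩)
      exact ⟨γ, conjugates_of_minpoly hn h1 h2, h3⟩
    · obtain ⟨ω, hω, hsum⟩ := hroots.exists_closure Ω
      obtain ⟨γ, h1, h2, h3⟩ := Pool.Agent.H11.Smyth.of_roots (fun i => (a i : K)) ω hω hsum
      exact ⟨γ, conjugates_of_minpoly hn h1 h2, h3⟩

end Pool.Agent.Results.MP_ed3ef1_nt.AbsoluteValueCriteria
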